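import Pool.Agent.N748.HM.Stm
import Pool.Agent.N748.GC.MV
import Pool.Agent.H370R2.MV

set_option autoImplicit false

/-!
# Mean values on the line `1` of long Dirichlet polynomials with small coefficients
-/

namespace Pool.Agent.V5helper81.HM

open Finset Filter MeasureTheory MonoidAlgebra Topology Complex
open Pool.Agent.N748.GC Pool.Agent.N748.HM

lemma msq (S : Finset ℕ) (hS : ∀ n ∈ S, n ≠ 0) (b : ℕ → ℂ) {T : ℝ} (hT : 0 ≤ T) :
    ∫ t in (0:ℝ)..T, ‖∑ n ∈ S, b n * (n : ℂ) ^ (-(t : ℂ) * I)‖ ^ 2 ≤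
      T * ∑ n ∈ S, ‖b n‖ ^ 2 +
        ∑ m ∈ S, ∑ n ∈ S, ‖b m‖ * ‖b n‖ * (2 * ((max m n : ℕ) : ℝ) * (1 / |(m : ℝ) - n|)) := by
  classical
  have hexp : ∀ t : ℝ, ((‖∑ n ∈ S, b n * (n : ℂ) ^ (-(t : ℂ) * I)‖ ^ 2 : ℝ) : ℂ) =
      ∑ m ∈ S, ∑ n ∈ S, b m * (starRingEnd ℂ) (b n) *
        cexp ((I * ((Real.log n - Real.log m : ℝ) : ℂ)) * t) := by
    intro t
    have h1 : ∀ z : ℂ, ((‖z‖ ^ 2 : ℝ) : ℂ) = z * (starRingEnd ℂ) z := by
      intro z; rw [Complex.mul_conj']; push_cast; rfl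
    rw [h1, map_sum, Finset.sum_mul_sum]
    refine Finset.sum_congr rfl fun m hm => Finset.sum_congr rfl fun n hn => ?_
    have hm0 : (m : ℂ) ≠ 0 := by exact_mod_cast hS m hm
    have hn0 : (n : ℂ) ≠ 0 := by exact_mod_cast hS n hn
    rw [map_mul, Complex.cpow_def_of_ne_zero hm0, Complex.cpow_def_of_ne_zero hn0,
      ← Complex.exp_conj, ← Complex.natCast_log, ← Complex.natCast_log]
    simp only [map_mul, map_neg, Complex.conj_ofReal, Complex.conj_I]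
    rw [mul_mul_mul_comm, ← Complex.exp_add]
    congr 2
    push_cast
    ring
  have hint : ((∫ t in (0:ℝ)..T, ‖∑ n ∈ S, b n * (n : ℂ) ^ (-(t : ℂ) * I)‖ ^ 2 : ℝ) : ℂ)
      = ∑ m ∈ S, ∑ n ∈ S, b m * (starRingEnd ℂ) (b n) *
        ∫ t in (0:ℝ)..T, cexp ((I * ((Real.log n - Real.log m : ℝ) : ℂ)) * t) := by
    rw [← intervalIntegral.integral_ofReal]
    simp_rw [hexp]
    rw [intervalIntegral.integral_finset_sum]
    · refine Finset.sum_congr rfl fun m hm => ?_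
      rw [intervalIntegral.integral_finset_sum]
      · refine Finset.sum_congr rfl fun n hn => ?_
        rw [intervalIntegral.integral_const_mul]
      · intro n hn
        exact (by fun_prop : Continuous fun t : ℝ => b m * (starRingEnd ℂ) (b n) *
          cexp ((I * ((Real.log n - Real.log m : ℝ) : ℂ)) * t)).intervalIntegrable _ _
    · intro m hm
      exact (by fun_prop : Continuous fun t : ℝ => ∑ n ∈ S, b m *
        (starRingEnd ℂ) (b n) *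
          cexp ((I * ((Real.log n - Real.log m : ℝ) : ℂ)) * t)).intervalIntegrable _ _
  have hle : ∫ t in (0:ℝ)..T, ‖∑ n ∈ S, b n * (n : ℂ) ^ (-(t : ℂ) * I)‖ ^ 2 ≤
      ‖((∫ t in (0:ℝ)..T, ‖∑ n ∈ S, b n * (n : ℂ) ^ (-(t : ℂ) * I)‖ ^ 2 : ℝ) : ℂ)‖ := by
    rw [Complex.norm_real]
    exact le_abs_self _
  refine hle.trans ?_
  rw [hint]
  have hb : ∀ m ∈ S, ∀ n ∈ S, ‖b m * (starRingEnd ℂ) (b n) *
        ∫ t in (0:ℝ)..T, cexp ((I * ((Real.log n - Real.log m : ℝ) : ℂ)) * t)‖ ≤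
      (if m = n then T * ‖b m‖ ^ 2 else 0) +
        ‖b m‖ * ‖b n‖ * (2 * ((max m n : ℕ) : ℝ) * (1 / |(m : ℝ) - n|)) := by
    intro m hm n hn
    rw [norm_mul, norm_mul, RCLike.norm_conj]
    have hm1 : 1 ≤ m := Nat.one_le_iff_ne_zero.2 (hS m hm)
    have hn1 : 1 ≤ n := Nat.one_le_iff_ne_zero.2 (hS n hn)
    have h1 := H370.MV.int_bound (X := max m n) 0 T hT
      (Finset.mem_Icc.2 ⟨hm1, le_max_left _ _⟩) (Finset.mem_Icc.2 ⟨hn1, le_max_right _ _⟩)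
    have h2 : ‖b m‖ * ‖b n‖ * ‖∫ t in (0:ℝ)..T,
        cexp ((I * ((Real.log n - Real.log m : ℝ) : ℂ)) * t)‖
        ≤ ‖b m‖ * ‖b n‖ * ((if m = n then T - 0 else 0) +
          2 * ((max m n : ℕ) : ℝ) * (1 / |(m : ℝ) - n|)) :=
      mul_le_mul_of_nonneg_left h1 (by positivity)
    refine h2.trans ?_
    rw [mul_add, sub_zero]
    refine add_le_add ?_ le_rfl
    split_ifs with hmn
    · subst hmn
      apply le_of_eq; ring
    · simp
  refine (norm_sum_le _ _).trans ((Finset.sum_le_sum fun m hm => (norm_sum_le _ _).trans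
    (Finset.sum_le_sum fun n hn => hb m hm n hn)).trans ?_)
  simp_rw [Finset.sum_add_distrib]
  have hA : ∑ m ∈ S, ∑ n ∈ S, (if m = n then T * ‖b m‖ ^ 2 else 0) = T * ∑ n ∈ S, ‖b n‖ ^ 2 := by
    rw [Finset.mul_sum]
    refine Finset.sum_congr rfl fun m hm => ?_
    rw [Finset.sum_ite_eq]
    simp [hm]
  rw [hA]

/-- the off-diagonal terms for coefficients of size `B / n` -/
lemma offdiag (S : Finset ℕ) (N : ℕ) (hS : S ⊆ Icc 1 N) (b : ℕ → ℂ) {B : ℝ}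
    (hb : ∀ n ∈ S, ‖b n‖ ≤ B / n) :
    ∑ m ∈ S, ∑ n ∈ S, ‖b m‖ * ‖b n‖ * (2 * ((max m n : ℕ) : ℝ) * (1 / |(m : ℝ) - n|)) ≤
      8 * B ^ 2 * (1 + Real.log N) ^ 2 := by
  classical
  have hpt : ∀ m ∈ S, ∀ n ∈ S, ‖b m‖ * ‖b n‖ * (2 * ((max m n : ℕ) : ℝ) * (1 / |(m : ℝ) - n|)) ≤
      2 * B ^ 2 * (1 / m * (1 / |(m : ℝ) - n|)) + 2 * B ^ 2 * (1 / n * (1 / |(m : ℝ) - n|)) := by
    intro m hm n hn
    have hm1 := (Finset.mem_Icc.1 (hS hm)).1
    have hn1 := (Finset.mem_Icc.1 (hS hn)).1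
    have hm0 : (0 : ℝ) < m := by exact_mod_cast hm1
    have hn0 : (0 : ℝ) < n := by exact_mod_cast hn1
    have h1 : ‖b m‖ * ‖b n‖ ≤ B / m * (B / n) :=
      mul_le_mul (hb m hm) (hb n hn) (norm_nonneg _) ((norm_nonneg _).trans (hb m hm))
    have h2 : ((max m n : ℕ) : ℝ) ≤ m + n := by
      rw [Nat.cast_max]
      exact max_le (by linarith) (by linarith)
    have h3 : 0 ≤ 1 / |(m : ℝ) - n| := by positivity
    have h4 : 2 * ((max m n : ℕ) : ℝ) * (1 / |(m : ℝ) - n|) ≤ 2 * ((m : ℝ) + n) * (1 / |(m : ℝ) - n|) :=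
      mul_le_mul_of_nonneg_right (by linarith) h3
    have h5 : 0 ≤ 2 * ((max m n : ℕ) : ℝ) * (1 / |(m : ℝ) - n|) := by positivity
    refine (mul_le_mul h1 h4 h5 ((by positivity : (0:ℝ) ≤ ‖b m‖ * ‖b n‖).trans h1)).trans
      (le_of_eq ?_)
    field_simp
    ring
  have hH : ∑ k ∈ Finset.Icc 1 N, 1 / (k : ℝ) ≤ 1 + Real.log N := by
    have h := harmonic_le_one_add_log N
    rw [harmonic_eq_sum_Icc] at h
    push_cast at h
    simpa [one_div] using h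
  have hl : 0 ≤ Real.log (N : ℝ) := Real.log_natCast_nonneg N
  have hin : ∀ m ∈ S, ∑ n ∈ S, 1 / |(m : ℝ) - n| ≤ 2 * (1 + Real.log N) := fun m hm =>
    (Finset.sum_le_sum_of_subset_of_nonneg hS fun _ _ _ => by positivity).trans
      (H370.MV.harm_sum N m (hS hm))
  have hfirst : ∑ m ∈ S, ∑ n ∈ S, 2 * B ^ 2 * (1 / m * (1 / |(m : ℝ) - n|)) ≤
      4 * B ^ 2 * (1 + Real.log N) ^ 2 := by
    calc ∑ m ∈ S, ∑ n ∈ S, 2 * B ^ 2 * (1 / m * (1 / |(m : ℝ) - n|))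
        = ∑ m ∈ S, 2 * B ^ 2 * (1 / m) * ∑ n ∈ S, 1 / |(m : ℝ) - n| := by
          refine Finset.sum_congr rfl fun m _ => ?_
          rw [Finset.mul_sum]
          exact Finset.sum_congr rfl fun n _ => by ring
      _ ≤ ∑ m ∈ S, 2 * B ^ 2 * (1 / m) * (2 * (1 + Real.log N)) :=
          Finset.sum_le_sum fun m hm => mul_le_mul_of_nonneg_left (hin m hm) (by positivity)
      _ = 4 * B ^ 2 * (1 + Real.log N) * ∑ m ∈ S, 1 / (m : ℝ) := by
          rw [Finset.mul_sum]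
          exact Finset.sum_congr rfl fun n _ => by ring
      _ ≤ 4 * B ^ 2 * (1 + Real.log N) * (1 + Real.log N) := by
          refine mul_le_mul_of_nonneg_left ?_ (by positivity)
          exact (Finset.sum_le_sum_of_subset_of_nonneg hS fun _ _ _ => by positivity).trans hH
      _ = 4 * B ^ 2 * (1 + Real.log N) ^ 2 := by ring
  calc ∑ m ∈ S, ∑ n ∈ S, ‖b m‖ * ‖b n‖ * (2 * ((max m n : ℕ) : ℝ) * (1 / |(m : ℝ) - n|))
      ≤ ∑ m ∈ S, ∑ n ∈ S, (2 * B ^ 2 * (1 / m * (1 / |(m : ℝ) - n|)) +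
          2 * B ^ 2 * (1 / n * (1 / |(m : ℝ) - n|))) :=
        Finset.sum_le_sum fun m hm => Finset.sum_le_sum fun n hn => hpt m hm n hn
    _ = ∑ m ∈ S, ∑ n ∈ S, 2 * B ^ 2 * (1 / m * (1 / |(m : ℝ) - n|)) +
        ∑ m ∈ S, ∑ n ∈ S, 2 * B ^ 2 * (1 / n * (1 / |(m : ℝ) - n|)) := by
        simp_rw [Finset.sum_add_distrib]
    _ = ∑ m ∈ S, ∑ n ∈ S, 2 * B ^ 2 * (1 / m * (1 / |(m : ℝ) - n|)) +
        ∑ m ∈ S, ∑ n ∈ S, 2 * B ^ 2 * (1 / m * (1 / |(m : ℝ) - n|)) := by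
        congr 1
        rw [Finset.sum_comm]
        refine Finset.sum_congr rfl fun m _ => Finset.sum_congr rfl fun n _ => ?_
        rw [abs_sub_comm]
    _ ≤ 8 * B ^ 2 * (1 + Real.log N) ^ 2 := by linarith

theorem t_MVW3 : S_MVW3 := by
  intro ε hε hε1
  refine ⟨8 * (1 + 1 / ε) ^ 2, by positivity, fun A M H δ D hA hM hH hδ hsup hco => ?_⟩
  classical
  set S := D.coeff.support with hS
  set N := ⌊M⌋₊ with hN
  have hn0 : ∀ n ∈ S, n ≠ 0 := fun n hn => (hsup n hn).1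
  have hSN : S ⊆ Icc 1 N := fun n hn => Finset.mem_Icc.2
    ⟨Nat.one_le_iff_ne_zero.2 (hn0 n hn), Nat.le_floor (hsup n hn).2⟩
  set b : ℕ → ℂ := fun n => D.coeff n * (n : ℂ) ^ (-(1 / 2 + δ : ℂ)) with hbdef
  have hnorm : ∀ n ∈ S, ‖b n‖ = ‖D.coeff n‖ * (n : ℝ) ^ (-(1 / 2 + δ)) := by
    intro n hn
    rw [hbdef]
    change ‖D.coeff n * (n : ℂ) ^ (-(1 / 2 + δ : ℂ))‖ = _
    rw [norm_mul, Complex.norm_natCast_cpow_of_pos (Nat.pos_of_ne_zero (hn0 n hn))]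
    simp
  have hM0 : 0 < M := by linarith
  have hb : ∀ n ∈ S, ‖b n‖ ≤ (A * M ^ ε) / n := by
    intro n hn
    have h1 : (1 : ℝ) ≤ n := by exact_mod_cast Nat.one_le_iff_ne_zero.2 (hn0 n hn)
    have h0 : (0 : ℝ) < n := by linarith
    rw [hnorm n hn, div_eq_mul_inv]
    refine mul_le_mul ((hco n).trans (mul_le_mul_of_nonneg_left
      (Real.rpow_le_rpow h0.le (hsup n hn).2 hε.le) hA)) ?_ (Real.rpow_nonneg h0.le _) (by positivity)
    rw [← Real.rpow_neg_one (n : ℝ)]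
    exact Real.rpow_le_rpow_of_exponent_le h1 (by linarith)
  have hec : ∀ h : ℝ, ec (1 / 2 + δ + h * I) D = ∑ n ∈ S, b n * (n : ℂ) ^ (-(h : ℂ) * I) := by
    intro h
    rw [MV.ec_apply]
    refine Finset.sum_congr rfl fun n hn => ?_
    have : (n : ℂ) ≠ 0 := by exact_mod_cast hn0 n hn
    rw [hbdef]
    change _ = D.coeff n * (n : ℂ) ^ (-(1 / 2 + δ : ℂ)) * (n : ℂ) ^ (-(h : ℂ) * I)
    rw [mul_assoc, ← Complex.cpow_add _ _ this]
    congr 2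
    ring
  simp_rw [hec]
  refine (msq S hn0 b hH).trans ?_
  have hnn : ∑ n ∈ S, ‖b n‖ ^ 2 = nn δ D := by
    unfold nn
    refine Finset.sum_congr rfl fun n hn => ?_
    have h0 : (0 : ℝ) < n := by exact_mod_cast Nat.pos_of_ne_zero (hn0 n hn)
    rw [hnorm n hn, mul_pow]
    congr 1
    unfold wd
    have h1 : (1 : ℝ) / n = (n : ℝ) ^ (-(1 : ℝ)) := by rw [Real.rpow_neg_one, one_div]
    rw [h1, ← Real.rpow_add h0, ← Real.rpow_natCast, ← Real.rpow_mul h0.le]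
    congr 1
    push_cast
    ring
  rw [hnn]
  refine add_le_add le_rfl ((offdiag S N hSN b hb).trans ?_)
  have hNM : (N : ℝ) ≤ M := Nat.floor_le hM0.le
  have hN1 : 1 ≤ N := Nat.one_le_floor_iff _ |>.2 hM
  have hl : Real.log (N : ℝ) ≤ M ^ ε / ε :=
    (Real.log_le_log (by exact_mod_cast hN1) hNM).trans (Real.log_le_rpow_div hM0.le hε)
  have h1 : 1 ≤ M ^ ε := Real.one_le_rpow hM hε.le
  have h2 : 1 + Real.log (N : ℝ) ≤ (1 + 1 / ε) * M ^ ε := by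
    have : (1 + 1 / ε) * M ^ ε = M ^ ε + M ^ ε / ε := by ring
    rw [this]
    linarith
  have h3 : 0 ≤ 1 + Real.log (N : ℝ) := by
    have := Real.log_natCast_nonneg N
    linarith
  calc 8 * (A * M ^ ε) ^ 2 * (1 + Real.log N) ^ 2
      ≤ 8 * (A * M ^ ε) ^ 2 * ((1 + 1 / ε) * M ^ ε) ^ 2 :=
        mul_le_mul_of_nonneg_left (pow_le_pow_left₀ h3 h2 2) (by positivity)
    _ = 8 * (1 + 1 / ε) ^ 2 * A ^ 2 * M ^ (4 * ε) := by
        have : M ^ (4 * ε) = (M ^ ε) ^ 4 := by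
          rw [← Real.rpow_natCast, ← Real.rpow_mul hM0.le]
          congr 1
          push_cast
          ring
        rw [this]
        ring

end Pool.Agent.V5helper81.HM
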