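import Pool.Agent.N748.GC.L2
import Pool.Agent.H307R2.LU

set_option autoImplicit false

/-!
# Partial sums of the zeta series near the line `1`
-/

namespace Pool.Agent.V5helper81.HM

open Finset Filter MeasureTheory MonoidAlgebra Topology Complex
open Pool.Agent.N748.GC

theorem t_ZPA : S_ZPA := by
  refine ⟨3, by norm_num, fun N σ h hN h1 h2 hh => ?_⟩
  set s : ℂ := σ + h * I with hs
  have hre : s.re = σ := by simp [hs]
  have him : s.im = h := by simp [hs]
  have hs0 : 0 < s.re := by rw [hre]; linarith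
  have hs1 : s ≠ 1 := by
    intro h'
    have := congrArg Complex.im h'
    rw [him] at this
    simp at this
    linarith
  have hN0 : (0 : ℝ) < N := by exact_mod_cast hN
  have hN1 : (1 : ℝ) ≤ N := by exact_mod_cast hN
  rw [Pool.Agent.H307R2.zeta_eq hN hs0 hs1]
  have e : ∑ n ∈ Icc 1 N, (n : ℂ) ^ (-s) + (N : ℂ) ^ (1 - s) / (s - 1) +
      s * Pool.Agent.H307R2.TM N Pool.Agent.H307R2.Ez s - ∑ m ∈ Icc 1 N, (m : ℂ) ^ (-s) =
      (N : ℂ) ^ (1 - s) / (s - 1) + s * Pool.Agent.H307R2.TM N Pool.Agent.H307R2.Ez s := by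
    ring
  rw [e]
  have n1 : ‖(N : ℂ) ^ (1 - s)‖ ≤ 1 := by
    have := Complex.norm_cpow_eq_rpow_re_of_pos hN0 (1 - s)
    rw [Complex.ofReal_natCast] at this
    rw [this]
    refine Real.rpow_le_one_of_one_le_of_nonpos hN1 ?_
    rw [Complex.sub_re, Complex.one_re, hre]
    linarith
  have n2 : h ≤ ‖s - 1‖ := by
    have := Complex.abs_im_le_norm (s - 1)
    have h3 : (s - 1).im = h := by simp [him]
    rw [h3] at this
    exact (le_abs_self _).trans this
  have n3 : ‖s‖ ≤ 3 * h := by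
    have := Complex.norm_le_abs_re_add_abs_im s
    rw [hre, him, abs_of_nonneg (by linarith), abs_of_nonneg (by linarith)] at this
    linarith
  have n4 := Pool.Agent.H307R2.TM_norm_le hN Pool.Agent.H307R2.Ez_norm_le hs0
  have n5 : (N : ℝ) ^ (-s.re) ≤ 1 / N := by
    have : (1 : ℝ) / N = (N : ℝ) ^ (-(1 : ℝ)) := by rw [Real.rpow_neg_one, one_div]
    rw [this]
    exact Real.rpow_le_rpow_of_exponent_le hN1 (by rw [hre]; linarith)
  have n6 : ‖Pool.Agent.H307R2.TM N Pool.Agent.H307R2.Ez s‖ ≤ 1 / N := by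
    refine n4.trans ?_
    rw [one_mul]
    refine (div_le_self (Real.rpow_nonneg hN0.le _) ?_).trans n5
    rw [hre]
    exact h1
  have h0 : 0 < h := by linarith
  have n7 : ‖(N : ℂ) ^ (1 - s) / (s - 1)‖ ≤ 1 / h := by
    rw [norm_div]
    exact div_le_div₀ zero_le_one n1 h0 n2
  calc ‖(N : ℂ) ^ (1 - s) / (s - 1) + s * Pool.Agent.H307R2.TM N Pool.Agent.H307R2.Ez s‖
      ≤ ‖(N : ℂ) ^ (1 - s) / (s - 1)‖ +
        ‖s‖ * ‖Pool.Agent.H307R2.TM N Pool.Agent.H307R2.Ez s‖ := by
        refine (norm_add_le _ _).trans ?_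
        rw [norm_mul]
    _ ≤ 1 / h + 3 * h * (1 / N) :=
        add_le_add n7 (mul_le_mul n3 n6 (norm_nonneg _) (by linarith))
    _ ≤ 3 * (1 / h + h / N) := by
        have : 0 ≤ 1 / h := by positivity
        have h4 : 3 * h * (1 / N) = 3 * (h / N) := by ring
        rw [h4]
        linarith

end Pool.Agent.V5helper81.HM
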