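import Pool.Agent.V5helper81.HM.Z2
import Pool.Agent.V5helper81.HM.ZPA
import Pool.Agent.V5helper81.HM.MVW3

set_option autoImplicit false

/-!
# Moments of zeta without the small primes on the line `1`
-/

namespace Pool.Agent.V5helper81.HM

open Finset Filter MeasureTheory MonoidAlgebra Topology Complex
open Pool.Agent.N748.GC Pool.Agent.N748.HM

lemma pow_sub_pow_le {x y : ℂ} {R : ℝ} (hR : 1 ≤ R) (hx : ‖x‖ ≤ R) (hy : ‖y‖ ≤ R) (j : ℕ) :
    ‖x ^ j - y ^ j‖ ≤ j * R ^ j * ‖x - y‖ := by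
  induction j with
  | zero => simp
  | succ j ih =>
    have e : x ^ (j + 1) - y ^ (j + 1) = x ^ j * (x - y) + (x ^ j - y ^ j) * y := by ring
    rw [e]
    refine (norm_add_le _ _).trans ?_
    rw [norm_mul, norm_mul, norm_pow]
    have h0 : 0 ≤ ‖x - y‖ := norm_nonneg _
    have hR0 : 0 ≤ R := by linarith
    calc ‖x‖ ^ j * ‖x - y‖ + ‖x ^ j - y ^ j‖ * ‖y‖
        ≤ R ^ j * ‖x - y‖ + (j * R ^ j * ‖x - y‖) * R := by gcongr
      _ ≤ R ^ (j + 1) * ‖x - y‖ + (j * R ^ j * ‖x - y‖) * R := by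
          have : R ^ j ≤ R ^ (j + 1) := pow_le_pow_right₀ hR (by omega)
          gcongr
      _ = ((j + 1 : ℕ) : ℝ) * R ^ (j + 1) * ‖x - y‖ := by
          push_cast
          ring

lemma pt_max (x : ℂ) {q : ℝ} (j : ℕ) (hq0 : 0 ≤ q) (hq : q ≤ 2 * j) {r : ℝ} (hr : 0 < r) :
    max (‖x‖ ^ q - 1) 0 ≤ (1 + r) * ‖x ^ j - 1‖ ^ 2 + 1 / r := by
  have hpos : 0 ≤ (1 + r) * ‖x ^ j - 1‖ ^ 2 + 1 / r := by positivity
  refine max_le ?_ hpos
  rcases le_total ‖x‖ 1 with h | h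
  · have : ‖x‖ ^ q ≤ 1 := Real.rpow_le_one (norm_nonneg _) h hq0
    linarith
  · have h1 : ‖x‖ ^ q ≤ ‖x ^ j‖ ^ 2 := by
      calc ‖x‖ ^ q ≤ ‖x‖ ^ (2 * j : ℝ) := Real.rpow_le_rpow_of_exponent_le h hq
        _ = ‖x ^ j‖ ^ 2 := by
          have : (2 * j : ℝ) = ((j * 2 : ℕ) : ℝ) := by push_cast; ring
          rw [this, Real.rpow_natCast, pow_mul, norm_pow]
    have h2 : ‖x ^ j‖ ≤ 1 + ‖x ^ j - 1‖ := by
      have := norm_add_le (x ^ j - 1) (1 : ℂ)
      rw [sub_add_cancel, norm_one] at this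
      linarith
    set t := ‖x ^ j - 1‖ with ht
    have ht0 : 0 ≤ t := norm_nonneg _
    have h3 : ‖x ^ j‖ ^ 2 ≤ (1 + t) ^ 2 := pow_le_pow_left₀ (norm_nonneg _) h2 2
    have h4 : 2 * t ≤ r * t ^ 2 + 1 / r := by
      have e : r * t ^ 2 + 1 / r - 2 * t = (r * t - 1) ^ 2 / r := by
        field_simp
        ring
      have : 0 ≤ (r * t - 1) ^ 2 / r := by positivity
      linarith
    nlinarith

lemma ec_DP (s : ℂ) (N : ℕ) (P : Finset ℕ) :
    ec s (DP N P) = (∑ n ∈ Icc 1 N, (n : ℂ) ^ (-s)) * ∏ p ∈ P, (1 - (p : ℂ) ^ (-s)) := by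
  unfold DP GN
  rw [map_mul, map_sum, map_prod]
  congr 1
  · exact Finset.sum_congr rfl fun n _ => by rw [MV.ec_single, one_mul]
  · exact Finset.prod_congr rfl fun n _ => by rw [map_sub, map_one, MV.ec_single, one_mul]

lemma norm_cpow_le {s : ℂ} (hs : 1 ≤ s.re) {n : ℕ} (hn : 1 ≤ n) : ‖(n : ℂ) ^ (-s)‖ ≤ 1 / n := by
  have h1 : (1 : ℝ) ≤ n := by exact_mod_cast hn
  rw [Complex.norm_natCast_cpow_of_pos (by omega), Complex.neg_re]
  have : (1 : ℝ) / n = (n : ℝ) ^ (-(1 : ℝ)) := by rw [Real.rpow_neg_one, one_div]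
  rw [this]
  exact Real.rpow_le_rpow_of_exponent_le h1 (by linarith)

lemma norm_prod_le {s : ℂ} (hs : 1 ≤ s.re) (z : ℕ) :
    ‖∏ p ∈ Sm z, (1 - (p : ℂ) ^ (-s))‖ ≤ 2 ^ (Sm z).card := by
  rw [norm_prod, ← Finset.prod_const]
  refine Finset.prod_le_prod (fun _ _ => norm_nonneg _) fun p hp => ?_
  have hp1 : 1 ≤ p := (prime_Sm p hp).one_lt.le
  have hpr : (1 : ℝ) ≤ p := by exact_mod_cast hp1
  have h1 := norm_cpow_le hs hp1
  have h2 : (1 : ℝ) / p ≤ 1 := by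
    rw [div_le_one (by linarith)]
    exact hpr
  have h3 := norm_sub_le (1 : ℂ) ((p : ℂ) ^ (-s))
  rw [norm_one] at h3
  linarith

lemma norm_SN_le {s : ℂ} (hs : 1 ≤ s.re) (N : ℕ) :
    ‖∑ n ∈ Icc 1 N, (n : ℂ) ^ (-s)‖ ≤ 1 + Real.log N := by
  refine (norm_sum_le _ _).trans ?_
  have hH : ∑ k ∈ Finset.Icc 1 N, 1 / (k : ℝ) ≤ 1 + Real.log N := by
    have h := harmonic_le_one_add_log N
    rw [harmonic_eq_sum_Icc] at h
    push_cast at h
    simpa [one_div] using h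
  exact (Finset.sum_le_sum fun n hn => norm_cpow_le hs (Finset.mem_Icc.1 hn).1).trans hH

/-- the error of the approximation -/
lemma err (hZ : ∃ C : ℝ, 0 < C ∧ ∀ (N : ℕ) (σ h : ℝ), 1 ≤ N → 1 ≤ σ → σ ≤ 2 → 1 ≤ h →
      ‖riemannZeta (σ + h * I) - ∑ n ∈ Icc 1 N, (n:ℂ) ^ (-(σ + h * I : ℂ))‖ ≤ C * (1 / h + h / N))
    (j z : ℕ) : ∃ K : ℝ, 0 ≤ K ∧ ∀ (N : ℕ) (H σ h : ℝ), 1 ≤ N → H ^ 2 ≤ N → 1 ≤ σ → σ ≤ 2 → 1 ≤ h →
      h ≤ H → ‖(riemannZeta (σ + h * I) * ∏ p ∈ Sm z, (1 - (p : ℂ) ^ (-(σ + h * I : ℂ)))) ^ j -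
        ec (σ + h * I) (DP N (Sm z) ^ j)‖ ≤ K * (1 + Real.log N) ^ j / h := by
  obtain ⟨C, hC, hZ⟩ := hZ
  set A : ℝ := 2 ^ (Sm z).card with hA
  have hA1 : 1 ≤ A := one_le_pow₀ (by norm_num)
  refine ⟨j * ((1 + 2 * C) * A) ^ j * (2 * C * A), by positivity,
    fun N H σ h hN hHN hσ hσ2 hh hhH => ?_⟩
  set s : ℂ := σ + h * I with hs
  have hre : 1 ≤ s.re := by simpa [hs] using hσ
  have hN0 : (0 : ℝ) < N := by exact_mod_cast hN
  have h0 : 0 < h := by linarith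
  set L : ℝ := 1 + Real.log N with hL
  have hL1 : 1 ≤ L := by
    have := Real.log_natCast_nonneg N
    linarith
  set SN : ℂ := ∑ n ∈ Icc 1 N, (n : ℂ) ^ (-s) with hSN
  set Eu : ℂ := ∏ p ∈ Sm z, (1 - (p : ℂ) ^ (-s)) with hEu
  have hEu1 : ‖Eu‖ ≤ A := norm_prod_le hre z
  have hSN1 : ‖SN‖ ≤ L := norm_SN_le hre N
  have hR : ‖riemannZeta s - SN‖ ≤ 2 * C / h := by
    refine (hZ N σ h hN hσ hσ2 hh).trans ?_
    have : h / N ≤ 1 / h := by
      rw [div_le_div_iff₀ hN0 h0]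
      nlinarith
    calc C * (1 / h + h / N) ≤ C * (1 / h + 1 / h) := by gcongr
      _ = 2 * C / h := by ring
  have hR1 : 2 * C / h ≤ 2 * C := div_le_self (by positivity) hh
  have hζ : ‖riemannZeta s‖ ≤ (1 + 2 * C) * L := by
    have h1 := norm_add_le (riemannZeta s - SN) SN
    rw [sub_add_cancel] at h1
    nlinarith
  have hRbig : 1 ≤ (1 + 2 * C) * A * L := by
    have : 1 ≤ (1 + 2 * C) * A := by nlinarith
    nlinarith
  have hx : ‖riemannZeta s * Eu‖ ≤ (1 + 2 * C) * A * L := by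
    rw [norm_mul]
    calc ‖riemannZeta s‖ * ‖Eu‖ ≤ ((1 + 2 * C) * L) * A := by gcongr
      _ = _ := by ring
  have hy : ‖SN * Eu‖ ≤ (1 + 2 * C) * A * L := by
    rw [norm_mul]
    calc ‖SN‖ * ‖Eu‖ ≤ L * A := by gcongr
      _ ≤ (1 + 2 * C) * (L * A) := by
          have : 0 ≤ L * A := by positivity
          nlinarith
      _ = _ := by ring
  have hxy : ‖riemannZeta s * Eu - SN * Eu‖ ≤ 2 * C * A / h := by
    rw [← sub_mul, norm_mul]
    calc ‖riemannZeta s - SN‖ * ‖Eu‖ ≤ (2 * C / h) * A := by gcongr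
      _ = _ := by ring
  rw [map_pow, ec_DP]
  refine (pow_sub_pow_le hRbig hx hy j).trans ?_
  calc j * ((1 + 2 * C) * A * L) ^ j * ‖riemannZeta s * Eu - SN * Eu‖
      ≤ j * ((1 + 2 * C) * A * L) ^ j * (2 * C * A / h) := by gcongr
    _ = j * ((1 + 2 * C) * A) ^ j * (2 * C * A) * L ^ j / h := by
        rw [mul_pow ((1 + 2 * C) * A) L j]
        ring

lemma cont_ec (δ : ℝ) {D : PC} (hD : ∀ n ∈ D.coeff.support, n ≠ 0) :
    Continuous fun h : ℝ => ec (1 / 2 + δ + h * I) D := by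
  have : (fun h : ℝ => ec (1 / 2 + δ + h * I) D) =
      fun h : ℝ => ∑ n ∈ D.coeff.support, D.coeff n * (n : ℂ) ^ (-(1 / 2 + δ + h * I : ℂ)) :=
    funext fun h => MV.ec_apply _ _
  rw [this]
  refine continuous_finset_sum _ fun n hn => continuous_const.mul ?_
  exact Continuous.const_cpow (by fun_prop) (Or.inl (by exact_mod_cast hD n hn))

lemma cont_zeta {δ : ℝ} (hδ : 0 < δ) : Continuous fun h : ℝ => riemannZeta (1 + 2 * δ + h * I) := by
  rw [continuous_iff_continuousAt]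
  intro h
  have hne : (1 + 2 * δ + h * I : ℂ) ≠ 1 := by
    intro h1
    have := congrArg Complex.re h1
    simp at this
    linarith
  exact ContinuousAt.comp (f := fun h : ℝ => (1 + 2 * δ + h * I : ℂ)) (g := riemannZeta)
    (differentiableAt_riemannZeta hne).continuousAt (by fun_prop)

lemma cont_euler (δ : ℝ) (z : ℕ) :
    Continuous fun h : ℝ => ∏ p ∈ Sm z, (1 - (p:ℂ) ^ (-(1 + 2 * δ + h * I : ℂ))) := by
  refine continuous_finset_prod _ fun p hp => continuous_const.sub ?_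
  exact Continuous.const_cpow (by fun_prop) (Or.inl (by exact_mod_cast (prime_Sm p hp).ne_zero))

/-- powers of the divisor function -/
lemma tau_pow {j : ℕ} (hj : 1 ≤ j) {ε : ℝ} (hε : 0 < ε) :
    ∃ C : ℝ, 0 < C ∧ ∀ n : ℕ, 1 ≤ n → (n.divisors.card : ℝ) ^ j ≤ C * (n : ℝ) ^ ε := by
  have hj0 : (0 : ℝ) < j := by exact_mod_cast hj
  obtain ⟨C, hC, h⟩ := Pool.Agent.Helper112.divisor_bound (ε / j) (by positivity)
  refine ⟨C ^ j, by positivity, fun n hn => ?_⟩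
  calc (n.divisors.card : ℝ) ^ j ≤ (C * (n : ℝ) ^ (ε / j)) ^ j :=
        pow_le_pow_left₀ (Nat.cast_nonneg _) (h n hn) j
    _ = C ^ j * (n : ℝ) ^ ε := by
        rw [mul_pow, ← Real.rpow_natCast ((n : ℝ) ^ (ε / j)), ← Real.rpow_mul (Nat.cast_nonneg _),
          div_mul_cancel₀ _ hj0.ne']

theorem t_ZML3 : S_ZML3 := by
  intro Q hQ
  set j : ℕ := max 1 ⌈Q / 2⌉₊ with hjdef
  have hj : 1 ≤ j := le_max_left _ _
  have hj0 : (0 : ℝ) < j := by exact_mod_cast hj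
  have hj1 : (1 : ℝ) ≤ j := by exact_mod_cast hj
  have hQj : Q ≤ 2 * j := by
    have h1 : Q / 2 ≤ (⌈Q / 2⌉₊ : ℝ) := Nat.le_ceil _
    have h2 : (⌈Q / 2⌉₊ : ℝ) ≤ j := by exact_mod_cast le_max_right _ _
    linarith
  obtain ⟨C1, hC1, htau1⟩ := tau_pow (j := 2 * j) (by omega) (ε := 1 / 2) (by norm_num)
  set ε : ℝ := 1 / (100 * j) with hε
  have hε0 : 0 < ε := by positivity
  have hε1 : ε ≤ 1 / 100 := by
    rw [hε]
    refine one_div_le_one_div_of_le (by norm_num) ?_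
    linarith
  obtain ⟨C2, hC2, htau2⟩ := tau_pow hj hε0
  obtain ⟨Cm, hCm, hMV⟩ := t_MVW3 ε hε0 hε1
  set c : ℝ := 4 * 4 ^ j + 8 * C1 with hc
  have hc0 : 0 < c := by positivity
  refine ⟨4 * (2 + c) + 1, by positivity, fun z hz => ?_⟩
  obtain ⟨K, hK, herr⟩ := err t_ZPA j z
  have hz0 : (0 : ℝ) < z := by exact_mod_cast (by omega : 0 < z)
  have hz1 : (1 : ℝ) ≤ z := by exact_mod_cast (by omega : 1 ≤ z)
  set A : ℝ := 2 ^ (Sm z).card with hA
  have hA1 : 1 ≤ A := one_le_pow₀ (by norm_num)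
  set Pz : ℕ := ∏ p ∈ Sm z, p with hPz
  have hPz1 : 1 ≤ Pz := prodSm_pos z
  have hPzr : (1 : ℝ) ≤ Pz := by exact_mod_cast hPz1
  set K2 : ℝ := K ^ 2 * (2 + 8 * j) ^ (2 * j) with hK2
  set K3 : ℝ := Cm * (A ^ j * C2) ^ 2 * (2 * Pz) with hK3
  have hK20 : 0 ≤ K2 := by positivity
  have hK30 : 0 ≤ K3 := by positivity
  refine ⟨1 + z * A ^ (2 * j) + (K2 * z) ^ 2 + (K3 * z) ^ 2, ?_, fun H hH δ hδ hδ1 q hq0 hqQ => ?_⟩
  · have : 0 ≤ z * A ^ (2 * j) + (K2 * z) ^ 2 + (K3 * z) ^ 2 := by positivity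
    linarith
  have ha : 0 ≤ z * A ^ (2 * j) := by positivity
  have hH1 : 1 ≤ H := by nlinarith [sq_nonneg (K2 * z), sq_nonneg (K3 * z)]
  have hH0 : 0 < H := by linarith
  have hHa : z * A ^ (2 * j) ≤ H := by nlinarith [sq_nonneg (K2 * z), sq_nonneg (K3 * z)]
  have hHb : (K2 * z) ^ 2 ≤ H := by nlinarith [sq_nonneg (K2 * z), sq_nonneg (K3 * z)]
  have hHc : (K3 * z) ^ 2 ≤ H := by nlinarith [sq_nonneg (K2 * z), sq_nonneg (K3 * z)]
  -- from `K √H ≤ H / z`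
  have hfin : ∀ k : ℝ, 0 ≤ k → (k * z) ^ 2 ≤ H → k * Real.sqrt H ≤ H / z := by
    intro k hk h
    have h1 : k * z ≤ Real.sqrt H := Real.le_sqrt_of_sq_le h
    have h2 : Real.sqrt H * Real.sqrt H = H := Real.mul_self_sqrt hH0.le
    rw [le_div_iff₀ hz0]
    calc k * Real.sqrt H * z = (k * z) * Real.sqrt H := by ring
      _ ≤ Real.sqrt H * Real.sqrt H := by gcongr
      _ = H := h2
  set N : ℕ := ⌈H ^ 2⌉₊ with hN
  have hNH : H ^ 2 ≤ N := Nat.le_ceil _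
  have hN1 : 1 ≤ N := by
    have : (1 : ℝ) ≤ N := by nlinarith
    exact_mod_cast this
  have hN0 : (0 : ℝ) < N := by exact_mod_cast hN1
  have hN2 : (N : ℝ) ≤ 2 * H ^ 2 := by
    have h1 := Nat.ceil_lt_add_one (a := H ^ 2) (by positivity)
    have h2 : 1 ≤ H ^ 2 := one_le_pow₀ hH1
    have h3 : (N : ℝ) < H ^ 2 + 1 := h1
    linarith
  set L : ℝ := 1 + Real.log N with hL
  have hL1 : 1 ≤ L := by
    have := Real.log_natCast_nonneg N
    linarith
  have hLb : L ^ (2 * j) ≤ (2 + 8 * j) ^ (2 * j) * Real.sqrt H := by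
    set a : ℝ := 1 / (4 * j) with ha'
    have ha0 : 0 < a := by positivity
    have h1 : Real.log N ≤ 1 + 8 * j * H ^ a := by
      calc Real.log N ≤ Real.log (2 * H ^ 2) := Real.log_le_log hN0 hN2
        _ = Real.log 2 + 2 * Real.log H := by
            rw [Real.log_mul (by norm_num) (by positivity), Real.log_pow]
            push_cast
            ring
        _ ≤ 1 + 2 * (H ^ a / a) := by
            have h2 := Real.log_le_rpow_div hH0.le ha0
            have h3 := Real.log_two_lt_d9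
            linarith
        _ = 1 + 8 * j * H ^ a := by
            rw [ha']
            field_simp
            ring
    have h2 : 1 ≤ H ^ a := Real.one_le_rpow hH1 ha0.le
    have h3 : L ≤ (2 + 8 * j) * H ^ a := by
      rw [hL]
      nlinarith
    calc L ^ (2 * j) ≤ ((2 + 8 * j) * H ^ a) ^ (2 * j) :=
          pow_le_pow_left₀ (by linarith) h3 _
      _ = (2 + 8 * j) ^ (2 * j) * Real.sqrt H := by
          rw [mul_pow, ← Real.rpow_natCast (H ^ a), ← Real.rpow_mul hH0.le, Real.sqrt_eq_rpow]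
          congr 2
          rw [ha']
          push_cast
          field_simp
          norm_num
  set r : ℝ := Real.sqrt z with hr
  have hr0 : 0 < r := Real.sqrt_pos.2 hz0
  have hr1 : 1 ≤ r := Real.one_le_sqrt.2 hz1
  have hrr : r * r = z := Real.mul_self_sqrt hz0.le
  set δ' : ℝ := 1 / 2 + 2 * δ with hδ'
  set D : PC := DP N (Sm z) ^ j - 1 with hD
  have hcop : Cop ∅ (((N * Pz : ℕ) : ℝ) ^ j) D := Cop_DPj hN1 j
  have hnn : nn δ' D ≤ c / z := by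
    refine nn_bound j hC1.le htau1 hz hN1 ?_ (by rw [hδ']; linarith)
    exact hHa.trans (Real.le_sqrt_of_sq_le hNH)
  -- the mean value
  have hmean : ∫ h in (1:ℝ)..H, ‖ec (1 / 2 + δ' + h * I) D‖ ^ 2 ≤ H * (c / z) + H / z := by
    have hcont : Continuous fun h : ℝ => ‖ec (1 / 2 + δ' + h * I) D‖ ^ 2 :=
      (cont_ec δ' fun n hn => (hcop n hn).1).norm.pow 2
    have hM1 : 1 ≤ ((N * Pz : ℕ) : ℝ) ^ j := one_le_pow₀ (by exact_mod_cast Nat.mul_pos hN1 hPz1)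
    have hmv := hMV (A ^ j * C2) (((N * Pz : ℕ) : ℝ) ^ j) H δ' D (by positivity) hM1 hH0.le
      (by rw [hδ']; linarith) (fun n hn => ⟨(hcop n hn).1, (hcop n hn).2.1⟩) (fun n => by
        by_cases h : D.coeff n = 0
        · rw [h, norm_zero]
          positivity
        · obtain ⟨hn2, hco⟩ := coeff_sub_one hN1 j h
          have hco' : D.coeff n = (DP N (Sm z) ^ j).coeff n := hco
          rw [hco']
          calc ‖(DP N (Sm z) ^ j).coeff n‖ ≤ A ^ j * (n.divisors.card : ℝ) ^ j :=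
                coeff_le_all j (by omega)
            _ ≤ A ^ j * (C2 * (n : ℝ) ^ ε) := by
                have := htau2 n (by omega)
                gcongr
            _ = A ^ j * C2 * (n : ℝ) ^ ε := by ring)
    have hsub : ∫ h in (1:ℝ)..H, ‖ec (1 / 2 + δ' + h * I) D‖ ^ 2 ≤
        ∫ h in (0:ℝ)..H, ‖ec (1 / 2 + δ' + h * I) D‖ ^ 2 := by
      rw [← intervalIntegral.integral_add_adjacent_intervals (hcont.intervalIntegrable 0 1)
        (hcont.intervalIntegrable 1 H)]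
      have : 0 ≤ ∫ h in (0:ℝ)..1, ‖ec (1 / 2 + δ' + h * I) D‖ ^ 2 :=
        intervalIntegral.integral_nonneg zero_le_one fun _ _ => by positivity
      linarith
    refine hsub.trans (hmv.trans ?_)
    have hMpow : (((N * Pz : ℕ) : ℝ) ^ j) ^ (4 * ε) ≤ 2 * Pz * Real.sqrt H := by
      have hb : (0 : ℝ) ≤ ((N * Pz : ℕ) : ℝ) := Nat.cast_nonneg _
      have e1 : (((N * Pz : ℕ) : ℝ) ^ j) ^ (4 * ε) = ((N * Pz : ℕ) : ℝ) ^ ((1 : ℝ) / 25) := by
        rw [← Real.rpow_natCast, ← Real.rpow_mul hb]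
        congr 1
        rw [hε]
        field_simp
        norm_num
      rw [e1]
      calc ((N * Pz : ℕ) : ℝ) ^ ((1 : ℝ) / 25) ≤ ((2 * Pz) * H ^ 2) ^ ((1 : ℝ) / 25) := by
            refine Real.rpow_le_rpow hb ?_ (by norm_num)
            push_cast
            nlinarith
        _ = (2 * Pz : ℝ) ^ ((1 : ℝ) / 25) * (H ^ 2) ^ ((1 : ℝ) / 25) :=
            Real.mul_rpow (by positivity) (by positivity)
        _ ≤ (2 * Pz : ℝ) ^ (1 : ℝ) * H ^ ((1 : ℝ) / 2) := by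
            have h1 : (2 * Pz : ℝ) ^ ((1 : ℝ) / 25) ≤ (2 * Pz : ℝ) ^ (1 : ℝ) :=
              Real.rpow_le_rpow_of_exponent_le (by linarith) (by norm_num)
            have h2 : (H ^ 2) ^ ((1 : ℝ) / 25) ≤ H ^ ((1 : ℝ) / 2) := by
              rw [← Real.rpow_natCast, ← Real.rpow_mul hH0.le]
              exact Real.rpow_le_rpow_of_exponent_le hH1 (by norm_num)
            gcongr
        _ = 2 * Pz * Real.sqrt H := by rw [Real.rpow_one, Real.sqrt_eq_rpow]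
    refine add_le_add (by gcongr) ?_
    calc Cm * (A ^ j * C2) ^ 2 * (((N * Pz : ℕ) : ℝ) ^ j) ^ (4 * ε)
        ≤ Cm * (A ^ j * C2) ^ 2 * (2 * Pz * Real.sqrt H) := by gcongr
      _ = K3 * Real.sqrt H := by rw [hK3]; ring
      _ ≤ H / z := hfin K3 hK30 hHc
  have hKL : K ^ 2 * L ^ (2 * j) ≤ H / z := by
    calc K ^ 2 * L ^ (2 * j) ≤ K ^ 2 * ((2 + 8 * j) ^ (2 * j) * Real.sqrt H) := by gcongr
      _ = K2 * Real.sqrt H := by rw [hK2]; ring
      _ ≤ H / z := hfin K2 hK20 hHb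
  -- the integrand
  have hpt : ∀ h ∈ Set.Icc (1 : ℝ) H, max (‖riemannZeta (1 + 2 * δ + h * I) *
      ∏ p ∈ Sm z, (1 - (p:ℂ) ^ (-(1 + 2 * δ + h * I : ℂ)))‖ ^ q - 1) 0 ≤
      (1 + r) * (2 * (K ^ 2 * L ^ (2 * j)) * h ^ (-2 : ℤ) +
        2 * ‖ec (1 / 2 + δ' + h * I) D‖ ^ 2) + 1 / r := by
    intro h hh
    have h0 : 0 < h := by linarith [hh.1]
    refine (pt_max _ j hq0 (hqQ.trans hQj) hr0).trans ?_
    have hcast : (((1 + 2 * δ : ℝ) : ℂ) + h * I) = 1 + 2 * δ + h * I := by push_cast; ring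
    have hcast2 : (1 / 2 + δ' + h * I : ℂ) = 1 + 2 * δ + h * I := by
      rw [hδ']
      push_cast
      ring
    have h1 := herr N H (1 + 2 * δ) h hN1 hNH (by linarith) (by linarith) hh.1 hh.2
    rw [hcast] at h1
    set x : ℂ := riemannZeta (1 + 2 * δ + h * I) *
      ∏ p ∈ Sm z, (1 - (p:ℂ) ^ (-(1 + 2 * δ + h * I : ℂ))) with hx
    have h2 : ec (1 / 2 + δ' + h * I) D = ec (1 + 2 * δ + h * I) (DP N (Sm z) ^ j) - 1 := by
      rw [hcast2, hD, map_sub, map_one]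
    rw [h2]
    set w : ℂ := ec (1 + 2 * δ + h * I) (DP N (Sm z) ^ j) with hw
    have h3 : ‖x ^ j - 1‖ ^ 2 ≤ 2 * ‖x ^ j - w‖ ^ 2 + 2 * ‖w - 1‖ ^ 2 := by
      have h4 : ‖x ^ j - 1‖ ≤ ‖x ^ j - w‖ + ‖w - 1‖ := by
        have := norm_add_le (x ^ j - w) (w - 1)
        rwa [sub_add_sub_cancel] at this
      nlinarith [norm_nonneg (x ^ j - 1), norm_nonneg (x ^ j - w), norm_nonneg (w - 1),
        sq_nonneg (‖x ^ j - w‖ - ‖w - 1‖)]
    have h5 : ‖x ^ j - w‖ ^ 2 ≤ K ^ 2 * L ^ (2 * j) * h ^ (-2 : ℤ) := by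
      calc ‖x ^ j - w‖ ^ 2 ≤ (K * L ^ j / h) ^ 2 := pow_le_pow_left₀ (norm_nonneg _) h1 2
        _ = K ^ 2 * L ^ (2 * j) * h ^ (-2 : ℤ) := by
            rw [div_pow, mul_pow, ← pow_mul, mul_comm j 2, zpow_neg, div_eq_mul_inv]
            norm_cast
    have h6 : ‖x ^ j - 1‖ ^ 2 ≤ 2 * (K ^ 2 * L ^ (2 * j)) * h ^ (-2 : ℤ) + 2 * ‖w - 1‖ ^ 2 := by
      nlinarith
    gcongr
  have hLcont : Continuous fun h : ℝ => max (‖riemannZeta (1 + 2 * δ + h * I) *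
      ∏ p ∈ Sm z, (1 - (p:ℂ) ^ (-(1 + 2 * δ + h * I : ℂ)))‖ ^ q - 1) 0 := by
    have h1 := ((cont_zeta hδ).mul (cont_euler δ z)).norm
    exact ((h1.rpow_const fun _ => Or.inr hq0).sub continuous_const).max continuous_const
  have hne : ∀ h ∈ Set.uIcc (1 : ℝ) H, h ≠ 0 := by
    intro h hh
    rw [Set.uIcc_of_le hH1] at hh
    linarith [hh.1]
  have hi1 : IntervalIntegrable (fun h : ℝ => 2 * (K ^ 2 * L ^ (2 * j)) * h ^ (-2 : ℤ)) volume 1 H := by
    refine ContinuousOn.intervalIntegrable ?_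
    exact continuousOn_const.mul (ContinuousOn.zpow₀ continuousOn_id _ fun h hh => Or.inl (hne h hh))
  have hi2 : IntervalIntegrable (fun h : ℝ => 2 * ‖ec (1 / 2 + δ' + h * I) D‖ ^ 2) volume 1 H :=
    (continuous_const.mul ((cont_ec δ' fun n hn => (hcop n hn).1).norm.pow 2)).intervalIntegrable _ _
  have hint := intervalIntegral.integral_mono_on hH1 (hLcont.intervalIntegrable 1 H)
    (((hi1.add hi2).const_mul (1 + r)).add (intervalIntegrable_const (c := 1 / r))) hpt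
  refine hint.trans ?_
  have hzp : ∫ h in (1:ℝ)..H, h ^ (-2 : ℤ) ≤ 1 := by
    rw [integral_zpow (Or.inr ⟨by norm_num, fun h => hne 0 h rfl⟩)]
    have : (H : ℝ) ^ ((-2 : ℤ) + 1) = H⁻¹ := by norm_num
    rw [this]
    have hinv : 0 < H⁻¹ := by positivity
    norm_num
    linarith
  rw [intervalIntegral.integral_add ((hi1.add hi2).const_mul (1 + r)) intervalIntegrable_const,
    intervalIntegral.integral_const_mul, intervalIntegral.integral_add hi1 hi2,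
    intervalIntegral.integral_const_mul, intervalIntegral.integral_const_mul,
    intervalIntegral.integral_const, smul_eq_mul]
  have hz2 : (z : ℝ) ^ (-(1 / 2 : ℝ)) = 1 / r := by
    rw [Real.rpow_neg hz0.le, ← Real.sqrt_eq_rpow, one_div]
  rw [hz2]
  have hKL0 : 0 ≤ K ^ 2 * L ^ (2 * j) := by positivity
  have hHz : H / z = H * (1 / r) * (1 / r) := by
    rw [← hrr]
    field_simp
  have s1 : 2 * (K ^ 2 * L ^ (2 * j)) * ∫ h in (1:ℝ)..H, h ^ (-2 : ℤ) ≤ 2 * (H / z) := by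
    calc 2 * (K ^ 2 * L ^ (2 * j)) * ∫ h in (1:ℝ)..H, h ^ (-2 : ℤ)
        ≤ 2 * (K ^ 2 * L ^ (2 * j)) * 1 := by gcongr
      _ ≤ 2 * (H / z) := by linarith
  have s2 : (1 + r) * (2 * (K ^ 2 * L ^ (2 * j)) * (∫ h in (1:ℝ)..H, h ^ (-2 : ℤ)) +
      2 * ∫ h in (1:ℝ)..H, ‖ec (1 / 2 + δ' + h * I) D‖ ^ 2) ≤
      (2 * r) * (2 * (H / z) + 2 * (H * (c / z) + H / z)) := by
    have hnonneg : 0 ≤ 2 * (H / z) + 2 * (H * (c / z) + H / z) := by positivity
    calc _ ≤ (1 + r) * (2 * (H / z) + 2 * (H * (c / z) + H / z)) := by gcongr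
      _ ≤ _ := by
          refine mul_le_mul_of_nonneg_right ?_ hnonneg
          linarith
  have s3 : (2 * r) * (2 * (H / z) + 2 * (H * (c / z) + H / z)) = 4 * (2 + c) * (1 / r) * H := by
    have e1 : H * (c / z) = c * (H / z) := by ring
    rw [e1, hHz]
    field_simp
    ring
  have s4 : (H - 1) * (1 / r) ≤ (1 / r) * H := by
    have : 0 < 1 / r := by positivity
    nlinarith
  calc _ ≤ 4 * (2 + c) * (1 / r) * H + (1 / r) * H := add_le_add (s2.trans (le_of_eq s3)) s4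
    _ = (4 * (2 + c) + 1) * (1 / r) * H := by ring

end Pool.Agent.V5helper81.HM
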