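import Pool.Agent.N748.HM.Stm
import Pool.Agent.N748.GC.MV
import Pool.Agent.Helper112.Arith

set_option autoImplicit false

/-!
# Coefficients of powers of sifted Dirichlet polynomials
-/

namespace Pool.Agent.V5helper81.HM

open Finset Filter MeasureTheory MonoidAlgebra Topology Complex
open Pool.Agent.N748.GC Pool.Agent.N748.HM

lemma cmul (f g : PC) {n : ℕ} (hn : n ≠ 0) :
    (f * g).coeff n = ∑ x ∈ n.divisorsAntidiagonal, f.coeff x.1 * g.coeff x.2 := by
  refine MonoidAlgebra.coeff_mul_antidiag f g n _ ?_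
  intro p
  rw [Nat.mem_divisorsAntidiagonal]
  exact ⟨fun h => h.1, fun h => ⟨h, hn⟩⟩

lemma csingle (f : PC) {q m : ℕ} (hq : q ≠ 0) (hm : m ≠ 0) :
    (f * single q 1).coeff m = if q ∣ m then f.coeff (m / q) else 0 := by
  classical
  rw [cmul _ _ hm]
  have hs : ∀ x : ℕ, (single q (1:ℂ) : PC).coeff x = if x = q then 1 else 0 := by
    intro x
    rw [MonoidAlgebra.coeff_single, Finsupp.single_apply]
    exact if_congr eq_comm rfl rfl
  simp_rw [hs, mul_ite, mul_one, mul_zero]
  split_ifs with h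
  · rw [Finset.sum_eq_single (m / q, q)]
    · simp
    · intro x hx hne
      rw [Nat.mem_divisorsAntidiagonal] at hx
      rw [if_neg]
      intro h2
      apply hne
      refine Prod.ext ?_ h2
      rw [← hx.1, h2, Nat.mul_div_cancel _ (Nat.pos_of_ne_zero hq)]
    · intro h2
      exact absurd (Nat.mem_divisorsAntidiagonal.2 ⟨Nat.div_mul_cancel h, hm⟩) h2
  · refine Finset.sum_eq_zero fun x hx => ?_
    rw [Nat.mem_divisorsAntidiagonal] at hx
    rw [if_neg]
    intro h2
    exact h ⟨x.1, by rw [← hx.1, h2, mul_comm]⟩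

/-- the partial sum of the zeta series -/
noncomputable def GN (N : ℕ) : PC := ∑ n ∈ Icc 1 N, single n 1

/-- the sifted partial sum -/
noncomputable def DP (N : ℕ) (P : Finset ℕ) : PC := GN N * ∏ p ∈ P, (1 - single p 1)

lemma GN_coeff (N m : ℕ) : (GN N).coeff m = if m ∈ Icc 1 N then 1 else 0 := by
  classical
  unfold GN
  rw [MonoidAlgebra.coeff_sum, Finsupp.finsetSum_apply]
  simp only [MonoidAlgebra.coeff_single, Finsupp.single_apply]
  rw [Finset.sum_ite_eq']

lemma DP_coeff (N : ℕ) (P : Finset ℕ) (hP : ∀ p ∈ P, p.Prime) :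
    (∀ m, m ≠ 0 → ‖(DP N P).coeff m‖ ≤ 2 ^ P.card) ∧
    ∀ m, m ≠ 0 → m ≤ N → (DP N P).coeff m = if ∀ p ∈ P, ¬ p ∣ m then 1 else 0 := by
  classical
  induction P using Finset.induction_on with
  | empty =>
    have h : DP N ∅ = GN N := by unfold DP; simp
    rw [h]
    constructor
    · intro m hm
      rw [GN_coeff]
      split_ifs <;> simp
    · intro m hm hmN
      rw [GN_coeff, if_pos (Finset.mem_Icc.2 ⟨Nat.one_le_iff_ne_zero.2 hm, hmN⟩)]
      simp
  | insert q P hq ih =>
    have hqp : q.Prime := hP q (Finset.mem_insert_self _ _)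
    obtain ⟨ih1, ih2⟩ := ih fun p hp => hP p (Finset.mem_insert_of_mem hp)
    have h : DP N (insert q P) = DP N P - DP N P * single q 1 := by
      unfold DP
      rw [Finset.prod_insert hq]
      ring
    have hc : ∀ m, m ≠ 0 → (DP N (insert q P)).coeff m =
        (DP N P).coeff m - if q ∣ m then (DP N P).coeff (m / q) else 0 := by
      intro m hm
      rw [h, MonoidAlgebra.coeff_sub, Finsupp.sub_apply, csingle _ hqp.ne_zero hm]
    have hd : ∀ m, m ≠ 0 → q ∣ m → m / q ≠ 0 := by
      intro m hm hqm h0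
      rw [Nat.div_eq_zero_iff] at h0
      rcases h0 with h0 | h0
      · exact hqp.ne_zero h0
      · exact absurd (Nat.le_of_dvd (Nat.pos_of_ne_zero hm) hqm) (by omega)
    constructor
    · intro m hm
      rw [hc m hm, Finset.card_insert_of_notMem hq, pow_succ]
      refine (norm_sub_le _ _).trans ?_
      have h1 := ih1 m hm
      split_ifs with hqm
      · have h2 := ih1 (m / q) (hd m hm hqm)
        linarith
      · rw [norm_zero]
        have : (0:ℝ) ≤ 2 ^ P.card := by positivity
        linarith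
    · intro m hm hmN
      rw [hc m hm, ih2 m hm hmN]
      by_cases hqm : q ∣ m
      · rw [if_pos hqm, ih2 (m / q) (hd m hm hqm) ((Nat.div_le_self _ _).trans hmN)]
        have h1 : (∀ p ∈ P, ¬ p ∣ m) ↔ ∀ p ∈ P, ¬ p ∣ m / q := by
          refine forall₂_congr fun p hp => not_congr ?_
          have hpp := hP p (Finset.mem_insert_of_mem hp)
          have hpq : p ≠ q := fun h => hq (h ▸ hp)
          constructor
          · intro h2
            rw [← Nat.div_mul_cancel hqm] at h2
            rcases hpp.dvd_mul.1 h2 with h3 | h3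
            · exact h3
            · exact absurd ((Nat.prime_dvd_prime_iff_eq hpp hqp).1 h3) hpq
          · intro h2
            exact h2.trans (Nat.div_dvd_of_dvd hqm)
        rw [if_congr h1 rfl rfl, sub_self, if_neg]
        intro h2
        exact h2 q (Finset.mem_insert_self _ _) hqm
      · rw [if_neg hqm, sub_zero]
        refine if_congr ?_ rfl rfl
        constructor
        · intro h2 p hp
          rcases Finset.mem_insert.1 hp with rfl | hp
          · exact hqm
          · exact h2 p hp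
        · exact fun h2 p hp => h2 p (Finset.mem_insert_of_mem hp)

lemma card_anti (n : ℕ) : (n.divisorsAntidiagonal.card : ℝ) = n.divisors.card := by
  rw [← Nat.map_div_right_divisors, card_map]

lemma pow_le (f : PC) {A : ℝ} (hA : 0 ≤ A) (j : ℕ) : ∀ n : ℕ, n ≠ 0 →
    (∀ d, d ∣ n → ‖f.coeff d‖ ≤ A) → ‖(f ^ j).coeff n‖ ≤ A ^ j * (n.divisors.card : ℝ) ^ j := by
  classical
  induction j with
  | zero =>
    intro n hn _
    rw [pow_zero, pow_zero, pow_zero, MonoidAlgebra.one_def, MonoidAlgebra.coeff_single,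
      Finsupp.single_apply]
    split_ifs <;> simp
  | succ j ih =>
    intro n hn h
    rw [pow_succ, cmul _ _ hn]
    refine (norm_sum_le _ _).trans ?_
    calc ∑ x ∈ n.divisorsAntidiagonal, ‖(f ^ j).coeff x.1 * f.coeff x.2‖
        ≤ ∑ x ∈ n.divisorsAntidiagonal, A ^ (j + 1) * (n.divisors.card : ℝ) ^ j := by
          refine Finset.sum_le_sum fun x hx => ?_
          rw [Nat.mem_divisorsAntidiagonal] at hx
          have hd1 : x.1 ∣ n := ⟨x.2, hx.1.symm⟩
          have hd2 : x.2 ∣ n := ⟨x.1, by rw [mul_comm]; exact hx.1.symm⟩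
          have hx0 : x.1 ≠ 0 := by
            intro h0
            apply hn
            rw [← hx.1, h0, zero_mul]
          rw [norm_mul, pow_succ A]
          have h1 := ih x.1 hx0 fun d hd => h d (hd.trans hd1)
          have h2 := h x.2 hd2
          have h3 : (x.1.divisors.card : ℝ) ^ j ≤ (n.divisors.card : ℝ) ^ j := by
            refine pow_le_pow_left₀ (Nat.cast_nonneg _) ?_ j
            exact_mod_cast Finset.card_le_card (Nat.divisors_subset_of_dvd hn hd1)
          calc ‖(f ^ j).coeff x.1‖ * ‖f.coeff x.2‖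
              ≤ (A ^ j * (x.1.divisors.card : ℝ) ^ j) * A :=
                mul_le_mul h1 h2 (norm_nonneg _) (by positivity)
            _ ≤ (A ^ j * (n.divisors.card : ℝ) ^ j) * A := by gcongr
            _ = A ^ j * A * (n.divisors.card : ℝ) ^ j := by ring
      _ = A ^ (j + 1) * (n.divisors.card : ℝ) ^ (j + 1) := by
          rw [Finset.sum_const, nsmul_eq_mul, card_anti]
          ring

lemma pow_coeff_one (f : PC) (h : f.coeff 1 = 1) (j : ℕ) : (f ^ j).coeff 1 = 1 := by
  induction j with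
  | zero =>
    rw [pow_zero, MonoidAlgebra.one_def, MonoidAlgebra.coeff_single, Finsupp.single_eq_same]
  | succ j ih =>
    rw [pow_succ, cmul _ _ one_ne_zero, Nat.divisorsAntidiagonal_one, Finset.sum_singleton, ih, h,
      one_mul]

lemma pow_mem (f : PC) (R : ℕ → Prop) (h1 : R 1) (hR : ∀ a b, R a → R b → R (a * b)) (j : ℕ) :
    ∀ n : ℕ, n ≠ 0 → (∀ d, d ∣ n → f.coeff d ≠ 0 → R d) → (f ^ j).coeff n ≠ 0 → R n := by
  classical
  induction j with
  | zero =>
    intro n hn _ h
    rw [pow_zero, MonoidAlgebra.one_def, MonoidAlgebra.coeff_single, Finsupp.single_apply] at h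
    split_ifs at h with h2
    · rwa [← h2]
    · exact absurd rfl h
  | succ j ih =>
    intro n hn hd h
    rw [pow_succ, cmul _ _ hn] at h
    obtain ⟨x, hx, hne⟩ := Finset.exists_ne_zero_of_sum_ne_zero h
    rw [Nat.mem_divisorsAntidiagonal] at hx
    have hd1 : x.1 ∣ n := ⟨x.2, hx.1.symm⟩
    have hd2 : x.2 ∣ n := ⟨x.1, by rw [mul_comm]; exact hx.1.symm⟩
    have hx0 : x.1 ≠ 0 := by
      intro h0
      apply hn
      rw [← hx.1, h0, zero_mul]
    rw [← hx.1]
    exact hR _ _ (ih x.1 hx0 (fun d hd' => hd d (hd'.trans hd1)) (left_ne_zero_of_mul hne))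
      (hd x.2 hd2 (right_ne_zero_of_mul hne))

/-- tails of the series of `n^(-3/2)` -/
lemma tail32 (S : Finset ℕ) (K : ℕ) (hK : 1 ≤ K) (hS : ∀ n ∈ S, K ≤ n) :
    ∑ n ∈ S, (n : ℝ) ^ (-(3 / 2 : ℝ)) ≤ 4 / Real.sqrt K := by
  classical
  have hstep : ∀ n : ℕ, 1 ≤ n → (n : ℝ) ^ (-(3 / 2 : ℝ)) ≤
      4 / Real.sqrt n - 4 / Real.sqrt (n + 1 : ℕ) := by
    intro n hn
    have h1 : (1 : ℝ) ≤ n := by exact_mod_cast hn
    have h0 : (0 : ℝ) < n := by linarith
    set a := Real.sqrt n with ha
    set b := Real.sqrt ((n + 1 : ℕ) : ℝ) with hb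
    have ha0 : 0 < a := Real.sqrt_pos.2 h0
    have hb0 : 0 < b := Real.sqrt_pos.2 (by positivity)
    have ha2 : a ^ 2 = n := Real.sq_sqrt h0.le
    have hb2 : b ^ 2 = n + 1 := by
      rw [hb, Real.sq_sqrt (by positivity)]
      push_cast
      ring
    have hab : a ≤ b := Real.sqrt_le_sqrt (by push_cast; linarith)
    have hpow : (n : ℝ) ^ (-(3 / 2 : ℝ)) = 1 / a ^ 3 := by
      rw [Real.rpow_neg h0.le, ha, Real.sqrt_eq_rpow, ← Real.rpow_natCast, ← Real.rpow_mul h0.le,
        one_div]
      congr 2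
      norm_num
    rw [hpow, div_sub_div _ _ ha0.ne' hb0.ne', div_le_div_iff₀ (by positivity) (by positivity)]
    have hb3 : b ^ 2 ≤ 2 * a ^ 2 := by rw [ha2, hb2]; linarith
    have hdiff : (b - a) * (b + a) = 1 := by
      have : (b - a) * (b + a) = b ^ 2 - a ^ 2 := by ring
      rw [this, ha2, hb2]
      ring
    -- `a b ≤ 4 (b - a) a ^ 3`
    have hb4 : b * (b + a) ≤ 4 * a ^ 2 := by nlinarith
    have hpos : 0 ≤ b - a := by linarith
    have : 1 * (a * b) ≤ (4 * b - a * 4) * a ^ 3 := by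
      have e1 : a * b = (b - a) * (b * (b + a)) * a := by
        calc a * b = a * b * 1 := by ring
          _ = a * b * ((b - a) * (b + a)) := by rw [hdiff]
          _ = _ := by ring
      rw [one_mul, e1]
      have e2 : (b - a) * (b * (b + a)) * a ≤ (b - a) * (4 * a ^ 2) * a := by gcongr
      refine e2.trans (le_of_eq (by ring))
    exact this
  have hsum : ∀ M : ℕ, K ≤ M → ∑ n ∈ Ico K M, (n : ℝ) ^ (-(3 / 2 : ℝ)) ≤
      4 / Real.sqrt K - 4 / Real.sqrt M := by
    intro M hM
    induction M, hM using Nat.le_induction with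
    | base => simp
    | succ M hM ih =>
      rw [Finset.sum_Ico_succ_top hM]
      have := hstep M (hK.trans hM)
      linarith
  obtain ⟨M, hM⟩ : ∃ M : ℕ, K ≤ M ∧ S ⊆ Ico K M := by
    refine ⟨max K (S.sup id + 1), le_max_left _ _, fun n hn => Finset.mem_Ico.2 ⟨hS n hn, ?_⟩⟩
    have : n ≤ S.sup id := Finset.le_sup (f := id) hn
    exact lt_of_lt_of_le (by omega) (le_max_right _ _)
  calc ∑ n ∈ S, (n : ℝ) ^ (-(3 / 2 : ℝ)) ≤ ∑ n ∈ Ico K M, (n : ℝ) ^ (-(3 / 2 : ℝ)) :=
        Finset.sum_le_sum_of_subset_of_nonneg hM.2 fun _ _ _ => by positivity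
    _ ≤ 4 / Real.sqrt K - 4 / Real.sqrt M := hsum M hM.1
    _ ≤ 4 / Real.sqrt K := by
        have : 0 ≤ 4 / Real.sqrt (M : ℝ) := by positivity
        linarith

end Pool.Agent.V5helper81.HM
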