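import Pool.Agent.V5helper81.HM.Z1

set_option autoImplicit false

/-!
# The norm of powers of sifted Dirichlet polynomials
-/

namespace Pool.Agent.V5helper81.HM

open Finset Filter MeasureTheory MonoidAlgebra Topology Complex
open Pool.Agent.N748.GC Pool.Agent.N748.HM

lemma Cop_mono {N M : ℝ} (h : N ≤ M) {f : PC} (hf : Cop ∅ N f) : Cop ∅ M f := fun n hn =>
  ⟨(hf n hn).1, (hf n hn).2.1.trans h, (hf n hn).2.2⟩

lemma Cop_single (q : ℕ) (hq : q ≠ 0) (c : ℂ) : Cop ∅ q (single q c) := by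
  classical
  intro n hn
  rw [MonoidAlgebra.coeff_single] at hn
  have := Finsupp.support_single_subset hn
  rw [Finset.mem_singleton] at this
  subst this
  exact ⟨hq, le_rfl, by simp⟩

lemma Cop_one {M : ℝ} (hM : 1 ≤ M) : Cop ∅ M (1 : PC) := by
  rw [MonoidAlgebra.one_def]
  exact Cop_mono (by simpa using hM) (Cop_single 1 one_ne_zero 1)

lemma Cop_sub {M : ℝ} {f g : PC} (hf : Cop ∅ M f) (hg : Cop ∅ M g) : Cop ∅ M (f - g) := by
  classical
  intro n hn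
  rw [MonoidAlgebra.coeff_sub, Finsupp.mem_support_iff, Finsupp.sub_apply] at hn
  by_cases h : f.coeff n = 0
  · refine hg n (Finsupp.mem_support_iff.2 fun h2 => hn ?_)
    rw [h, h2, sub_zero]
  · exact hf n (Finsupp.mem_support_iff.2 h)

lemma Cop_GN (N : ℕ) : Cop ∅ N (GN N) := by
  intro n hn
  rw [Finsupp.mem_support_iff, GN_coeff] at hn
  split_ifs at hn with h
  · rw [Finset.mem_Icc] at h
    exact ⟨by omega, by exact_mod_cast h.2, by simp⟩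
  · exact absurd rfl hn

lemma Cop_prod (P : Finset ℕ) (hP : ∀ p ∈ P, p.Prime) :
    Cop ∅ ((∏ p ∈ P, p : ℕ) : ℝ) (∏ p ∈ P, (1 - single p 1 : PC)) := by
  classical
  induction P using Finset.induction_on with
  | empty => simpa using Cop_one le_rfl
  | insert q P hq ih =>
    have hqp : q.Prime := hP q (Finset.mem_insert_self _ _)
    rw [Finset.prod_insert hq, Finset.prod_insert hq, Nat.cast_mul]
    refine MV.Cop_mul (by simp) (by positivity) ?_ (ih fun p hp => hP p (Finset.mem_insert_of_mem hp))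
    refine Cop_sub (Cop_one ?_) (Cop_single q hqp.ne_zero 1)
    exact_mod_cast hqp.one_lt.le

lemma Cop_DP (N : ℕ) (P : Finset ℕ) (hP : ∀ p ∈ P, p.Prime) :
    Cop ∅ ((N * ∏ p ∈ P, p : ℕ) : ℝ) (DP N P) := by
  unfold DP
  rw [Nat.cast_mul]
  exact MV.Cop_mul (by simp) (by positivity) (Cop_GN N) (Cop_prod P hP)

lemma Cop_pow {M : ℝ} (hM : 1 ≤ M) {f : PC} (hf : Cop ∅ M f) (j : ℕ) : Cop ∅ (M ^ j) (f ^ j) := by
  induction j with
  | zero => simpa using Cop_one le_rfl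
  | succ j ih =>
    rw [pow_succ, pow_succ]
    exact MV.Cop_mul (by simp) (by positivity) ih hf

lemma mem_Sm {z p : ℕ} : p ∈ Sm z ↔ p < z ∧ p.Prime := by
  unfold Sm
  rw [Finset.mem_filter, Finset.mem_range]

lemma prime_Sm {z : ℕ} : ∀ p ∈ Sm z, p.Prime := fun _ hp => (mem_Sm.1 hp).2

lemma prodSm_pos (z : ℕ) : 1 ≤ ∏ p ∈ Sm z, p :=
  Finset.prod_pos fun p hp => (prime_Sm p hp).pos

lemma Cop_DPj {z N : ℕ} (hN : 1 ≤ N) (j : ℕ) :
    Cop ∅ (((N * ∏ p ∈ Sm z, p : ℕ) : ℝ) ^ j) (DP N (Sm z) ^ j - 1) := by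
  have h1 : (1 : ℝ) ≤ ((N * ∏ p ∈ Sm z, p : ℕ) : ℝ) := by
    exact_mod_cast Nat.mul_pos hN (prodSm_pos z)
  exact Cop_sub (Cop_pow h1 (Cop_DP N _ prime_Sm) j) (Cop_one (one_le_pow₀ h1))

lemma coeff_le_all {z N : ℕ} (j : ℕ) {n : ℕ} (hn : n ≠ 0) :
    ‖(DP N (Sm z) ^ j).coeff n‖ ≤ (2 ^ (Sm z).card) ^ j * (n.divisors.card : ℝ) ^ j := by
  refine pow_le _ (by positivity) j n hn fun d hd => (DP_coeff N _ prime_Sm).1 d ?_
  rintro rfl
  exact hn (zero_dvd_iff.1 hd)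

lemma rough_of {z N : ℕ} (j : ℕ) {n : ℕ} (hn : n ≠ 0) (hnN : n ≤ N)
    (h : (DP N (Sm z) ^ j).coeff n ≠ 0) : ∀ p ∈ Sm z, ¬ p ∣ n := by
  refine pow_mem _ (fun m => ∀ p ∈ Sm z, ¬ p ∣ m) ?_ ?_ j n hn ?_ h
  · intro p hp h1
    exact (prime_Sm p hp).one_lt.ne' (Nat.dvd_one.1 h1)
  · intro a b ha hb p hp h1
    rcases (prime_Sm p hp).dvd_mul.1 h1 with h2 | h2
    · exact ha p hp h2
    · exact hb p hp h2
  · intro d hd hne
    have hd0 : d ≠ 0 := by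
      rintro rfl
      exact hn (zero_dvd_iff.1 hd)
    rw [(DP_coeff N _ prime_Sm).2 d hd0 ((Nat.le_of_dvd (Nat.pos_of_ne_zero hn) hd).trans hnN)]
      at hne
    by_contra h2
    rw [if_neg h2] at hne
    exact hne rfl

lemma coeff_le_small {z N : ℕ} (j : ℕ) {n : ℕ} (hn : n ≠ 0) (hnN : n ≤ N) :
    ‖(DP N (Sm z) ^ j).coeff n‖ ≤ (n.divisors.card : ℝ) ^ j := by
  have := pow_le (DP N (Sm z)) (A := 1) zero_le_one j n hn fun d hd => ?_
  · simpa using this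
  · have hd0 : d ≠ 0 := by
      rintro rfl
      exact hn (zero_dvd_iff.1 hd)
    rw [(DP_coeff N _ prime_Sm).2 d hd0 ((Nat.le_of_dvd (Nat.pos_of_ne_zero hn) hd).trans hnN)]
    split_ifs <;> simp

lemma coeff_sub_one {z N : ℕ} (hN : 1 ≤ N) (j : ℕ) {n : ℕ}
    (h : (DP N (Sm z) ^ j - 1).coeff n ≠ 0) : 2 ≤ n ∧
      (DP N (Sm z) ^ j - 1).coeff n = (DP N (Sm z) ^ j).coeff n := by
  classical
  have h0 : n ≠ 0 := (Cop_DPj hN j n (Finsupp.mem_support_iff.2 h)).1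
  have hone : ∀ m : ℕ, (1 : PC).coeff m = if m = 1 then 1 else 0 := by
    intro m
    rw [MonoidAlgebra.one_def, MonoidAlgebra.coeff_single, Finsupp.single_apply]
    exact if_congr eq_comm rfl rfl
  have h1 : n ≠ 1 := by
    rintro rfl
    apply h
    rw [MonoidAlgebra.coeff_sub, Finsupp.sub_apply, hone, if_pos rfl, pow_coeff_one, sub_self]
    rw [(DP_coeff N _ prime_Sm).2 1 one_ne_zero hN, if_pos]
    intro p hp h1
    exact (prime_Sm p hp).one_lt.ne' (Nat.dvd_one.1 h1)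
  refine ⟨by omega, ?_⟩
  rw [MonoidAlgebra.coeff_sub, Finsupp.sub_apply, hone, if_neg h1, sub_zero]

lemma wd_le {δ : ℝ} (hδ : 1 / 2 ≤ δ) {n : ℕ} (hn : 1 ≤ n) : wd δ n ≤ 1 / (n : ℝ) ^ 2 := by
  have h1 : (1 : ℝ) ≤ n := by exact_mod_cast hn
  have h0 : (0 : ℝ) < n := by linarith
  unfold wd
  have h2 : (n : ℝ) ^ (-(2 * δ)) ≤ 1 / n := by
    have : (1 : ℝ) / n = (n : ℝ) ^ (-(1 : ℝ)) := by rw [Real.rpow_neg_one, one_div]
    rw [this]
    exact Real.rpow_le_rpow_of_exponent_le h1 (by linarith)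
  calc (n : ℝ) ^ (-(2 * δ)) * (1 / n) ≤ 1 / n * (1 / n) := by gcongr
    _ = 1 / (n : ℝ) ^ 2 := by field_simp

lemma one_div_sq {n : ℕ} (hn : 1 ≤ n) :
    1 / (n : ℝ) ^ 2 = (n : ℝ) ^ (-(3 / 2 : ℝ)) * (1 / Real.sqrt n) := by
  have h0 : (0 : ℝ) < n := by exact_mod_cast hn
  rw [Real.sqrt_eq_rpow, one_div ((n : ℝ) ^ (1 / 2 : ℝ)), ← Real.rpow_neg h0.le,
    ← Real.rpow_add h0, ← Real.rpow_natCast, one_div, ← Real.rpow_neg h0.le]
  congr 1
  norm_num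

lemma half_sq {n : ℕ} (hn : 1 ≤ n) :
    (n : ℝ) ^ ((1 : ℝ) / 2) * (1 / (n : ℝ) ^ 2) = (n : ℝ) ^ (-(3 / 2 : ℝ)) := by
  have h0 : (0 : ℝ) < n := by exact_mod_cast hn
  rw [← Real.rpow_natCast, one_div ((n : ℝ) ^ ((2 : ℕ) : ℝ)), ← Real.rpow_neg h0.le,
    ← Real.rpow_add h0]
  congr 1
  norm_num

theorem nn_bound (j : ℕ) {C1 : ℝ} (hC0 : 0 ≤ C1)
    (hC1 : ∀ n : ℕ, 1 ≤ n → (n.divisors.card : ℝ) ^ (2 * j) ≤ C1 * (n : ℝ) ^ ((1 : ℝ) / 2))
    {z N : ℕ} (hz : 2 ≤ z) (hN : 1 ≤ N)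
    (hNz : (z : ℝ) * (2 ^ (Sm z).card) ^ (2 * j) ≤ Real.sqrt N) {δ : ℝ} (hδ : 1 / 2 ≤ δ) :
    nn δ (DP N (Sm z) ^ j - 1) ≤ (4 * 4 ^ j + 8 * C1) / z := by
  classical
  set g : PC := DP N (Sm z) ^ j - 1 with hg
  set S := g.coeff.support with hS
  set A : ℝ := (2 ^ (Sm z).card) ^ (2 * j) with hA
  have hA0 : 0 < A := by positivity
  have hz0 : (0 : ℝ) < z := by exact_mod_cast (by omega : 0 < z)
  have hsz : 0 < Real.sqrt z := Real.sqrt_pos.2 hz0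
  have hpt : ∀ n ∈ S, ‖g.coeff n‖ ^ 2 * wd δ n ≤
      (if z ≤ n then 4 ^ j / Real.sqrt z * (n : ℝ) ^ (-(3 / 2 : ℝ)) else 0) +
      (if z ^ 2 ≤ n then C1 * (n : ℝ) ^ (-(3 / 2 : ℝ)) else 0) +
      (if N ≤ n then A * C1 * (n : ℝ) ^ (-(3 / 2 : ℝ)) else 0) := by
    intro n hn
    obtain ⟨hn2, hco⟩ := coeff_sub_one hN j (Finsupp.mem_support_iff.1 hn)
    have hn1 : 1 ≤ n := by omega
    have hn0 : n ≠ 0 := by omega
    have hnr : (0 : ℝ) < n := by exact_mod_cast hn1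
    have hw := wd_le hδ hn1
    have hw0 := MV.wd_nonneg δ n
    have hp0 : 0 ≤ (n : ℝ) ^ (-(3 / 2 : ℝ)) := by positivity
    have hnon : ∀ (p : Prop) [Decidable p] (x : ℝ), 0 ≤ x → 0 ≤ if p then x else 0 := by
      intro p _ x hx
      split_ifs
      · exact hx
      · exact le_rfl
    have t1 := hnon (z ≤ n) (4 ^ j / Real.sqrt z * (n : ℝ) ^ (-(3 / 2 : ℝ))) (by positivity)
    have t2 := hnon (z ^ 2 ≤ n) (C1 * (n : ℝ) ^ (-(3 / 2 : ℝ))) (by positivity)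
    have t3 := hnon (N ≤ n) (A * C1 * (n : ℝ) ^ (-(3 / 2 : ℝ))) (by positivity)
    have hco' : g.coeff n = (DP N (Sm z) ^ j).coeff n := hco
    rw [hco']
    by_cases hnN : n ≤ N
    · have hb := coeff_le_small (z := z) j hn0 hnN
      have hr := rough_of (z := z) j hn0 hnN (by
        rw [← hco']
        exact Finsupp.mem_support_iff.1 hn)
      by_cases hpr : n.Prime
      · have hzn : z ≤ n := by
          by_contra h
          exact hr n (mem_Sm.2 ⟨by omega, hpr⟩) dvd_rfl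
        have hcard : (n.divisors.card : ℝ) = 2 := by
          rw [hpr.divisors, Finset.card_pair hpr.one_lt.ne]
          norm_num
        rw [hcard] at hb
        have h1 : ‖(DP N (Sm z) ^ j).coeff n‖ ^ 2 ≤ 4 ^ j := by
          calc ‖(DP N (Sm z) ^ j).coeff n‖ ^ 2 ≤ (2 ^ j) ^ 2 := pow_le_pow_left₀ (norm_nonneg _) hb 2
            _ = 4 ^ j := by rw [← pow_mul, mul_comm, pow_mul]; norm_num
        have h2 : ‖(DP N (Sm z) ^ j).coeff n‖ ^ 2 * wd δ n ≤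
            4 ^ j / Real.sqrt z * (n : ℝ) ^ (-(3 / 2 : ℝ)) := by
          calc ‖(DP N (Sm z) ^ j).coeff n‖ ^ 2 * wd δ n ≤ 4 ^ j * (1 / (n : ℝ) ^ 2) := by gcongr
            _ = 4 ^ j * ((n : ℝ) ^ (-(3 / 2 : ℝ)) * (1 / Real.sqrt n)) := by
                rw [one_div_sq hn1]
            _ ≤ 4 ^ j * ((n : ℝ) ^ (-(3 / 2 : ℝ)) * (1 / Real.sqrt z)) := by
                have : Real.sqrt z ≤ Real.sqrt n := Real.sqrt_le_sqrt (by exact_mod_cast hzn)
                gcongr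
            _ = _ := by ring
        rw [if_pos hzn]
        linarith
      · have hmf : z ≤ n.minFac := by
          by_contra h
          exact hr n.minFac (mem_Sm.2 ⟨by omega, Nat.minFac_prime (by omega)⟩) (Nat.minFac_dvd n)
        have hzn : z ^ 2 ≤ n :=
          (Nat.pow_le_pow_left hmf 2).trans (Nat.minFac_sq_le_self (by omega) hpr)
        have h2 : ‖(DP N (Sm z) ^ j).coeff n‖ ^ 2 * wd δ n ≤ C1 * (n : ℝ) ^ (-(3 / 2 : ℝ)) := by
          calc ‖(DP N (Sm z) ^ j).coeff n‖ ^ 2 * wd δ n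
              ≤ ((n.divisors.card : ℝ) ^ j) ^ 2 * (1 / (n : ℝ) ^ 2) := by gcongr
            _ = (n.divisors.card : ℝ) ^ (2 * j) * (1 / (n : ℝ) ^ 2) := by
                rw [← pow_mul, mul_comm j 2]
            _ ≤ (C1 * (n : ℝ) ^ ((1 : ℝ) / 2)) * (1 / (n : ℝ) ^ 2) := by
                have := hC1 n hn1
                gcongr
            _ = C1 * (n : ℝ) ^ (-(3 / 2 : ℝ)) := by rw [mul_assoc, half_sq hn1]
        rw [if_pos hzn]
        linarith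
    · have hb := coeff_le_all (z := z) (N := N) j hn0
      have h2 : ‖(DP N (Sm z) ^ j).coeff n‖ ^ 2 * wd δ n ≤ A * C1 * (n : ℝ) ^ (-(3 / 2 : ℝ)) := by
        calc ‖(DP N (Sm z) ^ j).coeff n‖ ^ 2 * wd δ n
            ≤ ((2 ^ (Sm z).card) ^ j * (n.divisors.card : ℝ) ^ j) ^ 2 * (1 / (n : ℝ) ^ 2) := by
              gcongr
          _ = A * ((n.divisors.card : ℝ) ^ (2 * j) * (1 / (n : ℝ) ^ 2)) := by
              rw [hA]
              ring
          _ ≤ A * ((C1 * (n : ℝ) ^ ((1 : ℝ) / 2)) * (1 / (n : ℝ) ^ 2)) := by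
              have := hC1 n hn1
              gcongr
          _ = A * C1 * (n : ℝ) ^ (-(3 / 2 : ℝ)) := by rw [mul_assoc C1, half_sq hn1, mul_assoc]
      rw [if_pos (by omega : N ≤ n)]
      linarith
  have hsum : nn δ g ≤ 4 ^ j / Real.sqrt z * (4 / Real.sqrt z) + C1 * (4 / Real.sqrt ((z ^ 2 : ℕ) : ℝ)) +
      A * C1 * (4 / Real.sqrt N) := by
    unfold nn
    refine (Finset.sum_le_sum hpt).trans ?_
    rw [Finset.sum_add_distrib, Finset.sum_add_distrib, ← Finset.sum_filter, ← Finset.sum_filter,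
      ← Finset.sum_filter, ← Finset.mul_sum, ← Finset.mul_sum, ← Finset.mul_sum]
    have a1 := tail32 (S.filter fun n => z ≤ n) z (by omega) fun n hn => (Finset.mem_filter.1 hn).2
    have a2 := tail32 (S.filter fun n => z ^ 2 ≤ n) (z ^ 2) (Nat.one_le_pow _ _ (by omega))
      fun n hn => (Finset.mem_filter.1 hn).2
    have a3 := tail32 (S.filter fun n => N ≤ n) N hN fun n hn => (Finset.mem_filter.1 hn).2
    gcongr
  refine hsum.trans ?_
  have e1 : 4 ^ j / Real.sqrt z * (4 / Real.sqrt z) = 4 * 4 ^ j / (z : ℝ) := by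
    rw [div_mul_div_comm, Real.mul_self_sqrt hz0.le]
    ring
  have e2 : Real.sqrt ((z ^ 2 : ℕ) : ℝ) = z := by
    rw [Nat.cast_pow]
    exact Real.sqrt_sq hz0.le
  have e3 : A * C1 * (4 / Real.sqrt N) ≤ 4 * C1 / z := by
    have hpos : 0 < Real.sqrt (N : ℝ) := Real.sqrt_pos.2 (by exact_mod_cast hN)
    rw [← mul_div_assoc, div_le_div_iff₀ hpos hz0]
    have := mul_le_mul_of_nonneg_left hNz (by positivity : (0 : ℝ) ≤ 4 * C1)
    calc A * C1 * 4 * z = 4 * C1 * (z * A) := by ring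
      _ ≤ 4 * C1 * Real.sqrt N := this
  rw [e1, e2]
  have e4 : (4 * 4 ^ j + 8 * C1) / (z : ℝ) = 4 * 4 ^ j / (z : ℝ) + C1 * (4 / z) + 4 * C1 / z := by ring
  rw [e4]
  linarith

end Pool.Agent.V5helper81.HM
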